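import Mathlib
import Pool.Agent.MP_aa8e9f_co.H93.Bridge

set_option autoImplicit false

namespace Pool.Agent.Results.MP_aa8e9f_co.Seventeen

open SimpleGraph

/-- Two distinct non-adjacent vertices all of whose chordless joining paths have even length. -/
def HasEvenPair {W : Type} (H : SimpleGraph W) : Prop :=
  ∃ x y : W, x ≠ y ∧ ¬ H.Adj x y ∧
    ∀ p : H.Walk x y, p.IsPath → p.IsChordless → Even p.length

/-- Every induced subgraph on at least two vertices, or its complement, has an even pair. -/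
def IsQuasiParity {W : Type} (H : SimpleGraph W) : Prop :=
  ∀ S : Set W, S.Nontrivial → HasEvenPair (H.induce S) ∨ HasEvenPair (H.induce S)ᶜ

/-- Not quasi-parity, while every proper induced subgraph is. -/
def IsMinimallyNonQuasiParity {W : Type} (H : SimpleGraph W) : Prop :=
  ¬ IsQuasiParity H ∧ ∀ S : Set W, S ≠ Set.univ → IsQuasiParity (H.induce S)

/-- A chordless cycle of odd length at least five. -/
def IsOddHole {W : Type} (H : SimpleGraph W) : Prop :=
  ∃ k : ℕ, 2 ≤ k ∧ Nonempty (H ≃g cycleGraph (2 * k + 1))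

/-- The line graph of some graph, bipartite or not. -/
def IsLineGraph {W : Type} (H : SimpleGraph W) : Prop :=
  ∃ (U : Type) (R : SimpleGraph U), Nonempty (H ≃g R.lineGraph)

/-- A vertex with three pairwise non-adjacent neighbours. -/
def HasClaw {W : Type} (H : SimpleGraph W) : Prop :=
  ∃ a b c d : W, H.Adj a b ∧ H.Adj a c ∧ H.Adj a d ∧ b ≠ c ∧ b ≠ d ∧ c ≠ d ∧
    ¬ H.Adj b c ∧ ¬ H.Adj b d ∧ ¬ H.Adj c d

/-- A minimally non-quasi-parity graph on 17 vertices such that it and its complement contain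
an induced claw and are neither odd holes nor line graphs. -/
theorem result :
    ∃ G : SimpleGraph (Fin 17), IsMinimallyNonQuasiParity G ∧
      HasClaw G ∧ HasClaw Gᶜ ∧ ¬ IsOddHole G ∧ ¬ IsOddHole Gᶜ ∧
      ¬ IsLineGraph G ∧ ¬ IsLineGraph Gᶜ := by
  have c1 : MP_aa8e9f_co.H85.Claw MP_aa8e9f_co.H85.G := MP_aa8e9f_co.H85.claw_KK true
  have c2 : MP_aa8e9f_co.H85.Claw MP_aa8e9f_co.H85.Gᶜ := MP_aa8e9f_co.H85.claw_KK false
  have hole : ∀ H : SimpleGraph (Fin 17), MP_aa8e9f_co.H85.Claw H → ¬ IsOddHole H := by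
    rintro H hH ⟨k, hk, ⟨φ⟩⟩
    obtain ⟨k, rfl⟩ : ∃ j, k = j + 1 := ⟨k - 1, by omega⟩
    exact MP_aa8e9f_co.H85.not_claw_cycle (2 * k + 1) (hH.map φ)
  have line : ∀ H : SimpleGraph (Fin 17), MP_aa8e9f_co.H85.Claw H → ¬ IsLineGraph H := by
    rintro H hH ⟨U, R, ⟨φ⟩⟩
    exact MP_aa8e9f_co.H85.not_claw_line R (hH.map φ)
  refine ⟨MP_aa8e9f_co.H85.G, ⟨fun h => ?_, fun S hS T hT => ?_⟩, c1, c2, hole _ c1, hole _ c2,
    line _ c1, line _ c2⟩
  · apply MP_aa8e9f_co.H93.whole
    rw [MP_aa8e9f_co.H93.EP_univ_iff, MP_aa8e9f_co.H93.EP_univ_iff]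
    exact h Set.univ Set.nontrivial_univ
  · have := MP_aa8e9f_co.H93.proper ((MP_aa8e9f_co.H85.G.induce S).induce T)
      ((Embedding.induce S).comp (Embedding.induce T)) hT.coe_sort (by
        intro h
        apply hS
        refine Set.eq_univ_of_forall fun v => ?_
        obtain ⟨w, rfl⟩ : v ∈ Set.range ((Embedding.induce (G := MP_aa8e9f_co.H85.G) S).comp
          (Embedding.induce T)) := h ▸ Set.mem_univ v
        exact w.1.2)
    rwa [MP_aa8e9f_co.H93.EP_univ_iff, MP_aa8e9f_co.H93.EP_univ_iff] at this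

end Pool.Agent.Results.MP_aa8e9f_co.Seventeen
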